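import Pool.Agent.H340R3.TSp.Specht
import Pool.Agent.H340R3.TSp.Space

/-! Independence of the elements `f n` for the formation of T-spaces. -/

namespace Pool.Agent.Y355.TS

open Pool.Agent.H340R3.TSp

universe u

section General

variable {K : Type u} [Field K] {F : Type u} [NonUnitalNonAssocRing F] [Module K F]
  [IsScalarTower K F F] [SMulCommClass K F F]

theorem bar_fin (f : ℕ → F) (B : Set ℕ) {y : F} (hy : y ∈ bar K (f '' B)) :
    ∃ B' : Set ℕ, B'.Finite ∧ B' ⊆ B ∧ y ∈ bar K (f '' B') := by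
  refine Submodule.span_induction
    (p := fun y _ => ∃ B' : Set ℕ, B'.Finite ∧ B' ⊆ B ∧ y ∈ bar K (f '' B')) ?_ ?_ ?_ ?_ hy
  · rintro y ⟨_, ⟨n, hn, rfl⟩, φ, rfl⟩
    exact ⟨{n}, Set.finite_singleton _, Set.singleton_subset_iff.2 hn,
      Submodule.subset_span ⟨f n, ⟨n, rfl, rfl⟩, φ, rfl⟩⟩
  · exact ⟨∅, Set.finite_empty, Set.empty_subset _, zero_mem _⟩
  · rintro a b _ _ ⟨N, h1, h2, h3⟩ ⟨M, h4, h5, h6⟩
    exact ⟨N ∪ M, h1.union h4, Set.union_subset h2 h5,
      add_mem (bar_mono (Set.image_mono Set.subset_union_left) h3)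
        (bar_mono (Set.image_mono Set.subset_union_right) h6)⟩
  · rintro c a _ ⟨N, h1, h2, h3⟩
    exact ⟨N, h1, h2, Submodule.smul_mem _ _ h3⟩

theorem finset_bar_fin (f : ℕ → F) (B : Set ℕ) (S : Finset F)
    (h : ∀ y ∈ S, y ∈ bar K (f '' B)) :
    ∃ B' : Set ℕ, B'.Finite ∧ B' ⊆ B ∧ (S : Set F) ⊆ bar K (f '' B') := by
  classical
  choose! r h1 h2 h3 using fun y (hy : y ∈ S) => bar_fin f B (h y hy)
  refine ⟨⋃ y ∈ (S : Set F), r y, S.finite_toSet.biUnion h1, Set.iUnion₂_subset h2,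
    fun y hy => ?_⟩
  exact bar_mono (Set.image_mono (Set.subset_biUnion_of_mem (u := r) hy)) (h3 y hy)

/-- an independent sequence gives a family of T-spaces ordered like the subsets of `ℕ` -/
theorem family (x : ℕ → F) (d : ℕ) (f : ℕ → F) (hf : ∀ n, f n ∈ Fd K x d)
    (hi : ∀ (B : Set ℕ) (n : ℕ), n ∉ B → f n ∉ bar K (f '' B)) :
    ∃ V : Set ℕ → Submodule K F, (∀ B, IsTSpace x d (V B)) ∧ (∀ A B, V A ≤ V B ↔ A ⊆ B) ∧
      ∀ B, HasFiniteBase x d (V B) ↔ B.Finite := by
  classical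
  have hin : ∀ (B : Set ℕ) (n : ℕ), n ∈ B → f n ∈ gen (K := K) x d (f '' B) := fun B n hn =>
    ⟨subset_bar _ ⟨n, hn, rfl⟩, hf n⟩
  refine ⟨fun B => gen (K := K) x d (f '' B), fun B => gen_isTSpace _ _ _, fun A B => ?_,
    fun B => ?_⟩
  · constructor
    · intro h n hn
      by_contra hB
      exact hi B n hB (h (hin A n hn)).1
    · intro h
      exact inf_le_inf_right _ (bar_mono (Set.image_mono h))
  · constructor
    · rintro ⟨S, hS, hV⟩
      obtain ⟨B', h1, h2, h3⟩ := finset_bar_fin (K := K) f B S (fun y hy => (hS hy).1)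
      refine h1.subset fun n hn => ?_
      by_contra hB
      have h4 := hin B n hn
      have hV' : gen (K := K) x d (f '' B) = bar K (S : Set F) ⊓ (Fd K x d).toSubmodule := hV
      rw [hV'] at h4
      have h5 := bar_mono (K := K) h3 h4.1
      rw [bar_bar] at h5
      exact hi B' n hB h5
    · intro hB
      refine ⟨hB.toFinset.image f, ?_, ?_⟩
      · intro y hy
        rw [Finset.mem_coe, Finset.mem_image] at hy
        obtain ⟨n, hn, rfl⟩ := hy
        exact hin B n (hB.mem_toFinset.1 hn)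
      · rw [Finset.coe_image, hB.coe_toFinset]
        rfl

end General

section Particular

variable {K : Type u} [Field K]

theorem fn_mem_of_two_le {d : ℕ} (hd : 2 ≤ d) (n : ℕ) : fn K n ∈ Fd K (X K) d := by
  have h0 : X K 0 ∈ Fd K (X K) d := X_mem_Fd (by omega)
  have h1 : X K 1 ∈ Fd K (X K) d := X_mem_Fd (by omega)
  induction n with
  | zero => exact sub_mem (mul_mem (mul_mem h0 h1) h0) (mul_mem (mul_mem h0 h0) h1)
  | succ n ih => exact mul_mem ih h0

/-- the degrees occurring in the elements of the T-space generated by `f n`, `n` in `B` -/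
theorem poly_of_mem' (B : Set ℕ) {y : NF K} (hy : y ∈ bar K (fn K '' B)) (a : ℕ → A4 K) :
    ∃ p : Polynomial K, (∀ k, p.coeff k ≠ 0 → ∃ n ∈ B, k = n + 3) ∧
      ∀ t, (psi K (fun k => t • a k) y) 0 = p.eval t := by
  refine Submodule.span_induction (p := fun y _ => ∃ p : Polynomial K,
      (∀ k, p.coeff k ≠ 0 → ∃ n ∈ B, k = n + 3) ∧
      ∀ t, (psi K (fun k => t • a k) y) 0 = p.eval t) ?_ ?_ ?_ ?_ hy
  · rintro y ⟨_, ⟨n, hn, rfl⟩, φ, rfl⟩
    refine ⟨Polynomial.C ((psi K a (φ (fn K n))) 0) * Polynomial.X ^ (n + 3), ?_, fun t => ?_⟩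
    · intro k hk
      rw [Polynomial.coeff_C_mul, Polynomial.coeff_X_pow] at hk
      by_contra h
      have : k ≠ n + 3 := fun h' => h ⟨n, hn, h'⟩
      rw [if_neg this, mul_zero] at hk
      exact hk rfl
    · rw [fn_value', Polynomial.eval_mul, Polynomial.eval_C, Polynomial.eval_pow,
        Polynomial.eval_X, mul_comm]
  · refine ⟨0, fun k hk => absurd (Polynomial.coeff_zero k) hk, fun t => ?_⟩
    rw [map_zero, Polynomial.eval_zero]; rfl
  · rintro y z _ _ ⟨p, hp, hp'⟩ ⟨q, hq, hq'⟩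
    refine ⟨p + q, fun k hk => ?_, fun t => ?_⟩
    · rw [Polynomial.coeff_add] at hk
      by_cases h : p.coeff k = 0
      · rw [h, zero_add] at hk
        exact hq k hk
      · exact hp k h
    · rw [map_add, A4_add, hp', hq', Polynomial.eval_add]
  · rintro c y _ ⟨p, hp, hp'⟩
    refine ⟨Polynomial.C c * p, fun k hk => ?_, fun t => ?_⟩
    · rw [Polynomial.coeff_C_mul] at hk
      exact hp k (right_ne_zero_of_mul hk)
    · rw [map_smul, A4_smul, hp', Polynomial.eval_mul, Polynomial.eval_C]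

theorem fn_indep [Infinite K] (B : Set ℕ) (N : ℕ) (hN : N ∉ B) : fn K N ∉ bar K (fn K '' B) := by
  intro h
  let a : ℕ → A4 K := fun k c =>
    if k = 0 then (if c = 1 ∨ c = 3 then 1 else 0) else (if c = 2 then 1 else 0)
  obtain ⟨p, hp, hp'⟩ := poly_of_mem' B h a
  have h1 : ∀ t, p.eval t = t ^ (N + 3) := by
    intro t
    rw [← hp', show fn K N = NonUnitalAlgHom.id K (NF K) (fn K N) from rfl,
      fn_value', fn_value]
    have e0 : (psi K a (NonUnitalAlgHom.id K (NF K) (X K 0))) = a 0 := psi_X a 0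
    have e1 : (psi K a (NonUnitalAlgHom.id K (NF K) (X K 1))) = a 1 := psi_X a 1
    rw [e0, e1]
    have f1 : a 0 1 = 1 := by simp [a]
    have f2 : a 1 2 = 1 := by simp [a]
    have f3 : a 0 3 = 1 := by simp [a]
    have f4 : a 0 2 = 0 := by simp [a]
    rw [f1, f2, f3, f4]
    ring
  have h2 : p = Polynomial.X ^ (N + 3) := by
    apply Polynomial.funext
    intro t
    rw [h1, Polynomial.eval_pow, Polynomial.eval_X]
  obtain ⟨n, hn, hn'⟩ := hp (N + 3) (by rw [h2, Polynomial.coeff_X_pow, if_pos rfl]; exact one_ne_zero)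
  obtain rfl : N = n := by omega
  exact hN hn

end Particular

end Pool.Agent.Y355.TS
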